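import Pool.Agent.Helper55.RT.Spec5

/-!
# Swarm THIN-3, part STB: vectors with stabilizers of small index
-/

set_option autoImplicit false

namespace Pool.Agent.Helper37.Thin.STB

open Pool.Agent.Helper55.RT

theorem main (hM : Q_MON) (hE : Q_EXO) : Q_STB := by
  intro p _ Ω _ _ _ _ m hm R _ _ hR r
  have hp : 0 < p := (Fact.out : p.Prime).pos
  let ρ : Representation Ω R (Fin m → Ω) :=
    { toFun := fun h => Matrix.mulVecLin ((r h).1.map (algebraMap ℚ_[p] Ω))
      map_one' := by
        ext i j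
        simp
      map_mul' := fun a b => by
        rw [map_mul, Units.val_mul, Matrix.map_mul, Matrix.mulVecLin_mul]
        rfl }
  have hρ : ∀ h x, ρ h x = ((r h).1.map (algebraMap ℚ_[p] Ω)).mulVec x := fun h x => rfl
  have h1 := hM p Ω R hR (Fin m → Ω) ρ
  rw [Module.finrank_fin_fun] at h1
  rw [eq_top_iff, ← h1]
  refine Submodule.span_mono ?_
  rintro x ⟨H, χ, hH, hx⟩
  by_cases hx0 : x = 0
  · refine ⟨⊤, ?_, fun h _ => by rw [hx0, Matrix.mulVec_zero]⟩
    rw [Subgroup.index_top]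
    have : 0 < 2 * p * m ^ 2 := by positivity
    omega
  refine ⟨χ.ker.map H.subtype, ?_, ?_⟩
  · have e1 : (χ.ker.map H.subtype).index = χ.ker.index * H.index := by
      rw [Subgroup.index_map_subtype]
    rw [e1, Subgroup.index_ker]
    have : Finite χ.range := Set.finite_range χ
    have : IsCyclic χ.range := inferInstance
    obtain ⟨⟨z, hz⟩, hgen⟩ := IsCyclic.exists_generator (α := χ.range)
    obtain ⟨h0, hh0⟩ := MonoidHom.mem_range.1 hz
    have e2 : Nat.card χ.range = orderOf (χ h0) := by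
      rw [← orderOf_eq_card_of_forall_mem_zpowers hgen, Subgroup.orderOf_mk, hh0]
    obtain ⟨a, ha⟩ := IsPGroup.iff_card.1 hR
    have e3 : (r h0.1).1 ^ p ^ a = 1 := by
      rw [← Units.val_pow_eq_pow_val, ← map_pow, ← ha, pow_card_eq_one', map_one, Units.val_one]
    obtain ⟨b, hb, hb1⟩ := hE p m hm (r h0.1).1 a e3
    have e4 : r (h0.1 ^ p ^ b) = 1 := by
      rw [map_pow]
      apply Units.ext
      rw [Units.val_pow_eq_pow_val, hb1, Units.val_one]
    have e5 : χ h0 ^ p ^ b = 1 := by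
      have h2 := hx (h0 ^ p ^ b)
      rw [hρ, Subgroup.coe_pow, e4, Units.val_one, map_pow] at h2
      have h3 : ((1 : Matrix (Fin m) (Fin m) ℚ_[p]).map (algebraMap ℚ_[p] Ω)).mulVec x = x := by
        rw [Matrix.map_one _ (map_zero _) (map_one _), Matrix.one_mulVec]
      rw [h3] at h2
      apply Units.ext
      obtain ⟨i, hi⟩ := Function.ne_iff.1 hx0
      have h4 := congrFun h2 i
      rw [Pi.smul_apply, smul_eq_mul] at h4
      have h5 : ((χ h0 ^ p ^ b : Ωˣ) : Ω) * x i = 1 * x i := by rw [one_mul]; exact h4.symm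
      exact mul_right_cancel₀ hi h5
    have e6 : orderOf (χ h0) ≤ p ^ b :=
      Nat.le_of_dvd (by positivity) (orderOf_dvd_of_pow_eq_one e5)
    rw [e2]
    calc orderOf (χ h0) * H.index ≤ (2 * p * m) * m := Nat.mul_le_mul (e6.trans hb) hH
      _ = 2 * p * m ^ 2 := by ring
  · rintro _ ⟨h, hh, rfl⟩
    have h2 := hx h
    rw [hρ, MonoidHom.mem_ker.1 hh, Units.val_one, one_smul] at h2
    exact h2


end Pool.Agent.Helper37.Thin.STB
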